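import Pool.Agent.MP_1c689d_ag.FP.Stmt

set_option autoImplicit false

namespace Pool.Agent.MP_1c689d_ag.SX

noncomputable section

variable {L : Type} [Field L] [Algebra ℂ L]

/-- The product `d a ∧ d b ∧ d c` in the exterior algebra of an `L`-vector space `M`. -/
def wedge3 {M : Type} [AddCommGroup M] [Module L M] (d : L → M) (a b c : L) :
    ExteriorAlgebra L M :=
  ExteriorAlgebra.ι L (d a) * ExteriorAlgebra.ι L (d b) * ExteriorAlgebra.ι L (d c)

/-- `φ · ds ∧ da ∧ db = ds ∧ du ∧ dv / z` as Kähler three-forms of `L`. -/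
def SameForm (s φ a b u v z : L) : Prop :=
  (φ * z) • wedge3 (KaehlerDifferential.D ℂ L) s a b = wedge3 (KaehlerDifferential.D ℂ L) s u v

/-- `z² = ℓ₁ ⋯ ℓ₆` is a double plane over `ℂ(s)` branched along six lines that are defined over
the algebraic closure of `ℂ(s)`; no three of the lines pass through a point, except possibly
the first three and the last three. -/
structure SixLines (s u v z : L) (ℓ : Fin 6 → Fin 3 → L) : Prop where
  ind : AlgebraicIndependent ℂ ![s, u, v]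
  alg : ∀ i j, IsAlgebraic (IntermediateField.adjoin ℂ {s}) (ℓ i j)
  det : ∀ i j k, i < j → j < k → (i, j, k) ≠ (0, 1, 2) → (i, j, k) ≠ (3, 4, 5) →
    Matrix.det (Matrix.of ![ℓ i, ℓ j, ℓ k]) ≠ 0
  eqn : z ^ 2 = ∏ i, (ℓ i 0 * u + ℓ i 1 * v + ℓ i 2)
  rat : z ^ 2 ∈ IntermediateField.adjoin ℂ {s, u, v}

/-- `L` is the function field of `C × C` for the genus two curve `C : y² = g(x)` over `ℂ(s)`, and
`u, v, w, z` generate the function field of the symmetric square of `C`. -/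
structure JacData (s u v w z x₁ y₁ x₂ y₂ : L) (g : Polynomial L) : Prop where
  coeff : ∀ i, g.coeff i ∈ IntermediateField.adjoin ℂ {s}
  deg : g.natDegree = 6
  sep : g.Separable
  e₁ : y₁ ^ 2 = g.eval x₁
  e₂ : y₂ ^ 2 = g.eval x₂
  hu : u = x₁ + x₂
  hv : v = x₁ * x₂
  hw : w = y₁ + y₂
  hz : z = y₁ * y₂
  gen : IntermediateField.adjoin ℂ {s, x₁, y₁, x₂, y₂} = ⊤

/-- `L` is the function field of `E × E'` for an elliptic curve `E` over `ℂ(s, δ)`, `δ² ∈ ℂ(s)`,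
and its conjugate `E'`, and `u, v, w, z` generate the function field of the descent of `E × E'`
to `ℂ(s)`. -/
structure WeilData (s u v w z x₁ y₁ x₂ y₂ δ A A' B B' : L) : Prop where
  ne : δ ≠ 0
  mem : ∀ c ∈ ({δ ^ 2, A, A', B, B'} : Set L), c ∈ IntermediateField.adjoin ℂ {s}
  d₁ : 4 * (A + A' * δ) ^ 3 + 27 * (B + B' * δ) ^ 2 ≠ 0
  d₂ : 4 * (A - A' * δ) ^ 3 + 27 * (B - B' * δ) ^ 2 ≠ 0
  e₁ : y₁ ^ 2 = x₁ ^ 3 + (A + A' * δ) * x₁ + (B + B' * δ)
  e₂ : y₂ ^ 2 = x₂ ^ 3 + (A - A' * δ) * x₂ + (B - B' * δ)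
  hu : u = x₁ + x₂
  hv : v = δ * (x₁ - x₂)
  hw : w = y₁ + y₂
  hz : z = y₁ * y₂
  gen : IntermediateField.adjoin ℂ {s, δ, x₁, y₁, x₂, y₂} = ⊤

/-- `ℂ(s, u, v, w, z)` is the function field of a principally polarised abelian surface over
`ℂ(s)`, given as a Jacobian or as a Weil restriction, with invariant form `du ∧ dv / z`. -/
def PPAbelian (s u v w z : L) : Prop :=
  AlgebraicIndependent ℂ ![s, u, v] ∧ ∃ x₁ y₁ x₂ y₂,
    (∃ g, JacData s u v w z x₁ y₁ x₂ y₂ g) ∨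
      ∃ δ A A' B B', WeilData s u v w z x₁ y₁ x₂ y₂ δ A A' B B'

end

end Pool.Agent.MP_1c689d_ag.SX
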